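import Pool.Agent.Lib.MP_0b748d_nt.SignChangeLower

set_option autoImplicit false

/-!
Let `g` be a completely multiplicative function with values `±1` (for instance the Liouville
function `(-1)^Ω`), let `f n = g (n^2 - 2)` and let `s` be `1` or `-1`.  If
`f j = - s ^ (j + 1)`, then `f (n + 1) = - s * f n` for at least
`√N / ((log N)^C * j^(2+ε))` of the integers `2 ≤ n ≤ N`, with `C` and the size of `N` depending
on `ε` only.  For `s = 1` this counts the sign changes of `f`, and the hypothesis is `f j = -1`;
for `s = -1` it counts the repetitions `f (n + 1) = f n`, and the hypothesis is `f j = (-1)^j`.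
-/

namespace Pool.Agent.Lib.MP_0b748d_nt.Old.SignChanges

open Pool.Agent.Lib.MP_0b748d_nt

theorem result :
    ∀ ε : ℝ, 0 < ε → ∃ C N₀ : ℕ, ∀ N : ℕ, N₀ ≤ N → ∀ g : ℕ → ℤ,
      (∀ m n : ℕ, 0 < m → 0 < n → g (m * n) = g m * g n) →
      (∀ m : ℕ, 0 < m → g m = 1 ∨ g m = -1) →
      ∀ s : ℤ, s = 1 ∨ s = -1 →
      ∀ j : ℕ, 2 ≤ j → j ≤ N → g (j ^ 2 - 2) = - s ^ (j + 1) →
        Real.sqrt N / ((Real.log N) ^ C * (j : ℝ) ^ (2 + ε)) ≤
          (((Finset.Icc 2 N).filter
            (fun n => g ((n + 1) ^ 2 - 2) = - s * g (n ^ 2 - 2))).card : ℝ) := by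
  intro ε hε
  obtain ⟨C, N₀, h⟩ := SignChange.lower ε hε
  refine ⟨C, N₀, fun N hN g h1 h2 s hs j hj hjN hf => ?_⟩
  have hpos : ∀ n ∈ Finset.Icc 2 N, 0 < n ^ 2 - 2 ∧ 0 < (n + 1) ^ 2 - 2 := by
    intro n hn
    rw [Finset.mem_Icc] at hn
    have a1 : 4 ≤ n ^ 2 := by nlinarith
    have a2 : 4 ≤ (n + 1) ^ 2 := by nlinarith
    omega
  rcases hs with rfl | rfl
  · have h3 := h N hN g ⟨h1, h2⟩ j hj hjN (by simpa using hf)
    have h4 : SignChange.DD g N = (Finset.Icc 2 N).filter
        (fun n => g ((n + 1) ^ 2 - 2) = - 1 * g (n ^ 2 - 2)) := by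
      unfold SignChange.DD
      refine Finset.filter_congr fun n hn => ?_
      obtain ⟨p1, p2⟩ := hpos n hn
      rcases h2 _ p1 with a | a <;> rcases h2 _ p2 with b | b <;> rw [a, b] <;> norm_num
    rw [← h4]
    exact h3
  · have tw : CM (fun m => g m * chiE m) :=
      CM_twist ⟨h1, h2⟩ (fun m n hm hn => chiE_mul hm hn) chiE_val
    have h3 := h N hN _ tw j hj hjN (by
      show g (j ^ 2 - 2) * chiE (j ^ 2 - 2) = -1
      rw [SignChange.chiE_val' hj, hf, pow_succ]
      rcases neg_one_pow_eq_or ℤ j with h | h <;> rw [h] <;> norm_num)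
    rw [SignChange.twist_DD' h2] at h3
    have h4 : (Finset.Icc 2 N).filter (fun n => g (n ^ 2 - 2) = g ((n + 1) ^ 2 - 2))
        = (Finset.Icc 2 N).filter
        (fun n => g ((n + 1) ^ 2 - 2) = - -1 * g (n ^ 2 - 2)) := by
      refine Finset.filter_congr fun n hn => ?_
      obtain ⟨p1, p2⟩ := hpos n hn
      rcases h2 _ p1 with a | a <;> rcases h2 _ p2 with b | b <;> rw [a, b] <;> norm_num
    rw [← h4]
    exact h3

end Pool.Agent.Lib.MP_0b748d_nt.Old.SignChanges

/- the claim file of this former hand-in:
Proves: For every real eps>0 there are C, N0 such that for all N>=N0, every completely multiplicative g from the positive integers to {1,-1}, with f(n)=g(n^2-2), each s in {1,-1} and every j with 2<=j<=N and f(j)=-s^(j+1), at least sqrt(N)/((log N)^C*j^(2+eps)) of the n with 2<=n<=N satisfy f(n+1)=-s*f(n).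
Definitions: none
Relation: Partial answer on the parity side of Q1. s=1 counts sign changes of f (condition f(j)=-1), s=-1 counts repetitions f(n+1)=f(n) (condition f(j)=(-1)^j). With g=(-1)^Omega (j=2, j=3): for at least sqrt(N)/(log N)^C of the n<=N exactly one of n^2-2, (n+1)^2-2 has an odd number of prime factors, and for at least as many n both or neither has. The condition on j is needed: g=1 has no sign change. The proof combines the identity f(2y^2+2y-1)=f(4y^2+2y-2)f(4y^2+6y) with the hand-in SignPersistence (values of f at single n; it says nothing about consecutive n). It does not produce or count primes. Earlier work known to me on the Liouville function at quadratic polynomials (Cassaigne-Ferenczi-Mauduit-Rivat-Sarkozy, Borwein-Choi-Ganguli 2013, Srinivasan 2015, Teravainen 2020) gives infinitely many sign changes, without such a count.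
-/
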